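import Pool.Agent.L0h86.F3.Va

/-!
# The real period of the curves `y² = x³ - D³`
-/

set_option autoImplicit false
set_option linter.unusedSectionVars false

open MeasureTheory

namespace Pool.Agent.L0h86.F4

open Pool.Agent.L0h23.EV (int_all)
open Pool.Agent.L0h86.F1 (psM)

/-- the integral of `2 / √(4 x³ + a)` -/
noncomputable def PA (a : ℝ) : ℝ := ∫ x : ℝ, 2 / Real.sqrt (4 * x ^ 3 + a)

/-- the scaling -/
lemma PA_scale {c : ℝ} (hc : 0 < c) (a : ℝ) : PA (c ^ 3 * a) = PA a / Real.sqrt c := by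
  have hs0 : 0 < Real.sqrt c := Real.sqrt_pos.2 hc
  have hss : Real.sqrt c * Real.sqrt c = c := Real.mul_self_sqrt hc.le
  have e2 := Measure.integral_comp_mul_left
    (fun y : ℝ => 2 / Real.sqrt (4 * y ^ 3 + c ^ 3 * a)) c
  have e3 : (∫ x : ℝ, (fun y : ℝ => 2 / Real.sqrt (4 * y ^ 3 + c ^ 3 * a)) (c * x)) =
      ∫ x : ℝ, 1 / (c * Real.sqrt c) * (2 / Real.sqrt (4 * x ^ 3 + a)) := by
    congr 1
    funext x
    beta_reduce
    have e5 : 4 * (c * x) ^ 3 + c ^ 3 * a = (c * Real.sqrt c) ^ 2 * (4 * x ^ 3 + a) := by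
      rw [mul_pow c (Real.sqrt c), pow_two (Real.sqrt _), hss]; ring
    rw [e5, Real.sqrt_mul (by positivity), Real.sqrt_sq (by positivity)]
    by_cases h5 : Real.sqrt (4 * x ^ 3 + a) = 0
    · rw [h5]
      simp
    · field_simp
  rw [e3, integral_const_mul] at e2
  have e5 : |c⁻¹| = c⁻¹ := abs_of_pos (by positivity)
  rw [e5, smul_eq_mul] at e2
  have e6 : PA (c ^ 3 * a) = c * (1 / (c * Real.sqrt c) * PA a) := by
    unfold PA
    rw [e2]
    field_simp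
  rw [e6]
  field_simp

/-- the two cubics -/
private noncomputable def f (x : ℝ) : ℝ := 2 / Real.sqrt (4 * x ^ 3 + 4)

private noncomputable def g (x : ℝ) : ℝ := 2 / Real.sqrt (4 * x ^ 3 - 108)

/-- the isogeny -/
private noncomputable def X (x : ℝ) : ℝ := x + 4 / x ^ 2

private lemma X_deriv {x : ℝ} (hx : x ≠ 0) : HasDerivAt X (1 - 8 / x ^ 3) x := by
  have h1 : HasDerivAt (fun x : ℝ => x ^ 2) (2 * x) x := by
    simpa using hasDerivAt_pow 2 x
  have h2 := (hasDerivAt_id x).add ((hasDerivAt_const x (4 : ℝ)).div h1 (pow_ne_zero 2 hx))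
  have e : (1 : ℝ) + (0 * x ^ 2 - 4 * (2 * x)) / (x ^ 2) ^ 2 = 1 - 8 / x ^ 3 := by
    field_simp
    ring
  rw [e] at h2
  exact h2

private lemma g_X {x : ℝ} (hx : x ≠ 0) (h2 : x ≠ 2) : |1 - 8 / x ^ 3| • g (X x) = f x := by
  have e : 4 * X x ^ 3 - 108 = (1 - 8 / x ^ 3) ^ 2 * (4 * x ^ 3 + 4) := by
    unfold X
    field_simp
    ring
  have h3 : 1 - 8 / x ^ 3 ≠ 0 := by
    intro h
    apply h2
    have h4 : x ^ 3 = 8 := by
      field_simp at h
      linarith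
    have h5 : (x - 2) * (x ^ 2 + 2 * x + 4) = 0 := by linear_combination h4
    rcases mul_eq_zero.1 h5 with h6 | h6
    · linarith
    · nlinarith [sq_nonneg (x + 1)]
  have h4 : |1 - 8 / x ^ 3| ≠ 0 := abs_ne_zero.2 h3
  unfold g f
  rw [e, Real.sqrt_mul (sq_nonneg _), Real.sqrt_sq_eq_abs, smul_eq_mul]
  generalize |1 - 8 / x ^ 3| = r at h4
  by_cases h5 : Real.sqrt (4 * x ^ 3 + 4) = 0
  · rw [h5]
    simp
  · generalize Real.sqrt (4 * x ^ 3 + 4) = t at h5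
    field_simp

private lemma X_sub {x y : ℝ} (hx : x ≠ 0) (hy : y ≠ 0) :
    X x - X y = (x - y) * (1 - 4 * (x + y) / (x ^ 2 * y ^ 2)) := by
  unfold X
  field_simp
  ring

/-- one piece -/
private lemma piece {s : Set ℝ} (hs : MeasurableSet s) (h0 : ∀ x ∈ s, x ≠ 0 ∧ x ≠ 2)
    (hinj : Set.InjOn X s) (him : X '' s = Set.Ioi 3) :
    (∫ x in s, f x) = ∫ x in Set.Ioi 3, g x := by
  rw [← him, integral_image_eq_integral_abs_deriv_smul (f' := fun x => 1 - 8 / x ^ 3) hs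
    (fun x hx => (X_deriv (h0 x hx).1).hasDerivWithinAt) hinj]
  exact setIntegral_congr_fun hs fun x hx => (g_X (h0 x hx).1 (h0 x hx).2).symm

private lemma piece_int {s : Set ℝ} (hs : MeasurableSet s) (h0 : ∀ x ∈ s, x ≠ 0 ∧ x ≠ 2)
    (hinj : Set.InjOn X s) (him : X '' s = Set.Ioi 3) :
    IntegrableOn f s ↔ IntegrableOn g (Set.Ioi 3) := by
  rw [← him, integrableOn_image_iff_integrableOn_abs_deriv_smul (f' := fun x => 1 - 8 / x ^ 3) hs
    (fun x hx => (X_deriv (h0 x hx).1).hasDerivWithinAt) hinj]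
  exact integrableOn_congr_fun (fun x hx => (g_X (h0 x hx).1 (h0 x hx).2).symm) hs

private lemma X_gt {x : ℝ} (h0 : x ≠ 0) (h1 : -1 < x) (h2 : x ≠ 2) : 3 < X x := by
  have e : X x - 3 = (x + 1) * (x - 2) ^ 2 / x ^ 2 := by
    unfold X
    field_simp
    ring
  have h3 : 0 < (x - 2) ^ 2 := by
    have : x - 2 ≠ 0 := sub_ne_zero.2 h2
    positivity
  have h4 : 0 < x ^ 2 := by positivity
  have h5 : 0 < (x + 1) * (x - 2) ^ 2 / x ^ 2 := by
    have : 0 < x + 1 := by linarith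
    positivity
  linarith

private lemma X_inj {x y : ℝ} (hx : x ≠ 0) (hy : y ≠ 0) (h : X x = X y)
    (hne : x ^ 2 * y ^ 2 - 4 * (x + y) ≠ 0) : x = y := by
  have e : (x - y) * (x ^ 2 * y ^ 2 - 4 * (x + y)) = 0 := by
    unfold X at h
    field_simp at h
    linear_combination h
  rcases mul_eq_zero.1 e with h1 | h1
  · linarith
  · exact absurd h1 hne

private lemma X_of {x y : ℝ} (hx : x ≠ 0) (h : x ^ 3 - y * x ^ 2 + 4 = 0) : X x = y := by
  unfold X
  field_simp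
  linarith

private lemma cont (y : ℝ) (s : Set ℝ) : ContinuousOn (fun x : ℝ => x ^ 3 - y * x ^ 2 + 4) s := by
  fun_prop

private lemma im1 : X '' Set.Ioo (-1) 0 = Set.Ioi 3 := by
  ext y
  constructor
  · rintro ⟨x, ⟨h1, h2⟩, rfl⟩
    exact X_gt h2.ne h1 (by linarith)
  · intro hy
    have hy' : 3 < y := hy
    have h1 := intermediate_value_Ioo (a := -1) (b := 0) (by norm_num) (cont y _)
    obtain ⟨x, hx, h2⟩ := h1 (show (0 : ℝ) ∈ Set.Ioo _ _ by
      constructor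
      · show (-1 : ℝ) ^ 3 - y * (-1) ^ 2 + 4 < 0
        linarith
      · show (0 : ℝ) < 0 ^ 3 - y * 0 ^ 2 + 4
        norm_num)
    exact ⟨x, hx, X_of hx.2.ne h2⟩

private lemma im2 : X '' Set.Ioo 0 2 = Set.Ioi 3 := by
  ext y
  constructor
  · rintro ⟨x, ⟨h1, h2⟩, rfl⟩
    exact X_gt h1.ne' (by linarith) h2.ne
  · intro hy
    have hy' : 3 < y := hy
    have h1 := intermediate_value_Ioo' (a := 0) (b := 2) (by norm_num) (cont y _)
    obtain ⟨x, hx, h2⟩ := h1 (show (0 : ℝ) ∈ Set.Ioo _ _ by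
      constructor
      · show (2 : ℝ) ^ 3 - y * 2 ^ 2 + 4 < 0
        linarith
      · show (0 : ℝ) < 0 ^ 3 - y * 0 ^ 2 + 4
        norm_num)
    exact ⟨x, hx, X_of hx.1.ne' h2⟩

private lemma im3 : X '' Set.Ioi 2 = Set.Ioi 3 := by
  ext y
  constructor
  · rintro ⟨x, h1, rfl⟩
    have h1' : 2 < x := h1
    exact X_gt (by linarith) (by linarith) h1'.ne'
  · intro hy
    have hy' : 3 < y := hy
    have h1 := intermediate_value_Ioo (a := 2) (b := y) (by linarith) (cont y _)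
    obtain ⟨x, hx, h2⟩ := h1 (show (0 : ℝ) ∈ Set.Ioo _ _ by
      constructor
      · show (2 : ℝ) ^ 3 - y * 2 ^ 2 + 4 < 0
        linarith
      · show (0 : ℝ) < y ^ 3 - y * y ^ 2 + 4
        have : y ^ 3 - y * y ^ 2 + 4 = 4 := by ring
        rw [this]
        norm_num)
    exact ⟨x, hx.1, X_of (by linarith [hx.1]) h2⟩

private lemma in1 : Set.InjOn X (Set.Ioo (-1) 0) := by
  intro x hx y hy h
  refine X_inj hx.2.ne hy.2.ne h (ne_of_gt ?_)
  have := hx.2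
  have := hy.2
  nlinarith [mul_nonneg (sq_nonneg x) (sq_nonneg y)]

private lemma in2 : Set.InjOn X (Set.Ioo 0 2) := by
  intro x hx y hy h
  refine X_inj hx.1.ne' hy.1.ne' h (ne_of_lt ?_)
  obtain ⟨h1, h2⟩ := hx
  obtain ⟨h3, h4⟩ := hy
  have k1 : x * y < 4 := by nlinarith
  have k2 : x * y ^ 2 < 8 := by nlinarith [mul_pos h1 h3]
  have k3 : x ^ 2 * y < 8 := by nlinarith [mul_pos h1 h3]
  have k4 : x * (x * y ^ 2) < x * 8 := mul_lt_mul_of_pos_left k2 h1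
  have k5 : y * (x ^ 2 * y) < y * 8 := mul_lt_mul_of_pos_left k3 h3
  nlinarith

private lemma in3 : Set.InjOn X (Set.Ioi 2) := by
  intro x hx y hy h
  have h1 : 2 < x := hx
  have h3 : 2 < y := hy
  refine X_inj (by linarith) (by linarith) h (ne_of_gt ?_)
  have k1 : 4 < x * y := by nlinarith
  have k2 : 8 < x * y ^ 2 := by nlinarith
  have k3 : 8 < x ^ 2 * y := by nlinarith
  have k4 : x * 8 < x * (x * y ^ 2) := mul_lt_mul_of_pos_left k2 (by linarith)
  have k5 : y * 8 < y * (x ^ 2 * y) := mul_lt_mul_of_pos_left k3 (by linarith)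
  nlinarith

/-- the integral of `2 / √(4 x³ + 4)` is three times the one of `2 / √(4 x³ - 108)` -/
lemma PA_three : PA 4 = 3 * PA (-108) := by
  have m1 : MeasurableSet (Set.Ioo (-1 : ℝ) 0) := measurableSet_Ioo
  have m2 : MeasurableSet (Set.Ioo (0 : ℝ) 2) := measurableSet_Ioo
  have m3 : MeasurableSet (Set.Ioi (2 : ℝ)) := measurableSet_Ioi
  have z1 : ∀ x ∈ Set.Ioo (-1 : ℝ) 0, x ≠ 0 ∧ x ≠ 2 := fun x hx =>
    ⟨hx.2.ne, by linarith [hx.2]⟩
  have z2 : ∀ x ∈ Set.Ioo (0 : ℝ) 2, x ≠ 0 ∧ x ≠ 2 := fun x hx => ⟨hx.1.ne', hx.2.ne⟩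
  have z3 : ∀ x ∈ Set.Ioi (2 : ℝ), x ≠ 0 ∧ x ≠ 2 := fun x hx => by
    have : (2 : ℝ) < x := hx
    exact ⟨by linarith, this.ne'⟩
  have e1 := piece m1 z1 in1 im1
  have e2 := piece m2 z2 in2 im2
  have e3 := piece m3 z3 in3 im3
  have i1 := piece_int m1 z1 in1 im1
  have i2 := piece_int m2 z2 in2 im2
  have i3 := piece_int m3 z3 in3 im3
  -- the two integrals
  have a1 : PA 4 = ∫ x in Set.Ioi (-1 : ℝ), f x := by
    unfold PA
    symm
    apply setIntegral_eq_integral_of_forall_compl_eq_zero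
    intro x hx
    have hx' : x ≤ -1 := not_lt.1 hx
    have : 4 * x ^ 3 + 4 ≤ 0 := by nlinarith [sq_nonneg (x - 1), sq_nonneg x]
    unfold f
    rw [Real.sqrt_eq_zero_of_nonpos this, div_zero]
  have a2 : PA (-108) = ∫ x in Set.Ioi (3 : ℝ), g x := by
    unfold PA
    symm
    have : (fun x : ℝ => 2 / Real.sqrt (4 * x ^ 3 + -108)) = g := by
      funext x
      unfold g
      rw [sub_eq_add_neg]
    rw [this]
    apply setIntegral_eq_integral_of_forall_compl_eq_zero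
    intro x hx
    have hx' : x ≤ 3 := not_lt.1 hx
    have : 4 * x ^ 3 - 108 ≤ 0 := by nlinarith [sq_nonneg (x + 3 / 2), sq_nonneg x]
    unfold g
    rw [Real.sqrt_eq_zero_of_nonpos this, div_zero]
  rw [a1, a2]
  have ae : (Set.Ioi (-1 : ℝ) : Set ℝ) =ᵐ[volume]
      (Set.Ioo (-1 : ℝ) 0 ∪ (Set.Ioo 0 2 ∪ Set.Ioi 2) : Set ℝ) := by
    have s1 : Set.Ioi (-1 : ℝ) = Set.Ioc (-1 : ℝ) 0 ∪ (Set.Ioc 0 2 ∪ Set.Ioi 2) := by
      rw [Set.Ioc_union_Ioi_eq_Ioi (by norm_num : (0 : ℝ) ≤ 2),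
        Set.Ioc_union_Ioi_eq_Ioi (by norm_num : (-1 : ℝ) ≤ 0)]
    rw [s1]
    exact Ioo_ae_eq_Ioc.symm.union (Ioo_ae_eq_Ioc.symm.union (ae_eq_refl _))
  have dj1 : Disjoint (Set.Ioo (0 : ℝ) 2) (Set.Ioi 2) := by
    rw [Set.disjoint_left]
    intro x h1 h2
    have : (2 : ℝ) < x := h2
    linarith [h1.2]
  have dj2 : Disjoint (Set.Ioo (-1 : ℝ) 0) (Set.Ioo 0 2 ∪ Set.Ioi 2) := by
    rw [Set.disjoint_left]
    rintro x h1 (h2 | h2)
    · linarith [h1.2, h2.1]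
    · have : (2 : ℝ) < x := h2
      linarith [h1.2]
  rw [setIntegral_congr_set ae]
  by_cases hg : IntegrableOn g (Set.Ioi 3)
  · rw [setIntegral_union dj2 (m2.union m3) (i1.2 hg) ((i2.2 hg).union (i3.2 hg)),
      setIntegral_union dj1 m3 (i2.2 hg) (i3.2 hg), e1, e2, e3]
    ring
  · have hf : ¬ IntegrableOn f (Set.Ioo (-1 : ℝ) 0 ∪ (Set.Ioo 0 2 ∪ Set.Ioi 2)) := fun h =>
      hg (i1.1 (h.mono_set Set.subset_union_left))
    rw [integral_undef hf, integral_undef hg, mul_zero]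

/-- the two periods -/
lemma PA_neg : PA 4 = Real.sqrt 3 * PA (-4) := by
  have h1 := PA_scale (c := 3) (by norm_num) (-4)
  have e : (3 : ℝ) ^ 3 * -4 = -108 := by norm_num
  rw [e] at h1
  have hs : Real.sqrt 3 * Real.sqrt 3 = 3 := Real.mul_self_sqrt (by norm_num)
  have hs0 : Real.sqrt 3 ≠ 0 := by
    intro h
    rw [h] at hs
    norm_num at hs
  rw [PA_three, h1]
  field_simp
  rw [pow_two, hs]
  ring

/-- the cubic polynomial `4 x³ + b₂ x² + 2 b₄ x + b₆` of the equation `y² = x³ - D³` -/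
noncomputable def psN (D : ℕ) (x : ℝ) : ℝ := 4 * x ^ 3 - 4 * (D : ℝ) ^ 3

/-- **the real period integral of the twist by `-D`** -/
theorem real_periodN {D : ℕ} (hD : 0 < D) :
    Real.sqrt 3 * (∫ x in {x : ℝ | 0 < psN D x}, 2 / Real.sqrt (psN D x)) =
      ∫ x in {x : ℝ | 0 < psM D x}, 2 / Real.sqrt (psM D x) := by
  have hD0 : (0 : ℝ) < D := by exact_mod_cast hD
  have e1 : (∫ x in {x : ℝ | 0 < psN D x}, 2 / Real.sqrt (psN D x)) = PA (-4) / Real.sqrt D := by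
    rw [int_all (psN D), ← PA_scale hD0]
    unfold PA psN
    congr 1
    funext x
    congr 3
    ring
  have e2 : (∫ x in {x : ℝ | 0 < psM D x}, 2 / Real.sqrt (psM D x)) = PA 4 / Real.sqrt D := by
    rw [int_all (psM D), ← PA_scale hD0]
    unfold PA psM
    congr 1
    funext x
    congr 3
    ring
  rw [e1, e2, PA_neg]
  ring

section
open scoped PeriodPair
open Pool.Agent.Y696 Pool.Agent.Y715.T.Lat Pool.Agent.L0h86.F3

variable {Γ : Type} [LinearOrderedCommGroupWithZero Γ] {v : Valuation ℂ Γ} {L : PeriodPair} {Ω : ℂ}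

/-- the valuation of the real period -/
theorem v_periodN (t2 : v 2 < 1) (hC : Cur L Ω) {D : ℕ} (hD : D % 2 = 1) :
    v ((∫ x in {x : ℝ | 0 < psN D x}, 2 / Real.sqrt (psN D x) : ℝ) : ℂ) * v 2 =
      v ((c4 : ℝ) : ℂ) * v Ω := by
  have hs : v ((Real.sqrt 3 : ℝ) : ℂ) = 1 := by
    rw [← map_one v]
    apply v_of_sq
    rw [← map_pow, ← Complex.ofReal_pow, Real.sq_sqrt (by norm_num), map_one, one_pow]
    push_cast
    exact v_three t2
  rw [← v_periodM t2 hC hD, ← real_periodN (by omega)]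
  push_cast
  rw [map_mul, hs, one_mul]

end

end Pool.Agent.L0h86.F4
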