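import Pool.Agent.L0h4.T4.Def
import Pool.Agent.L0h86.F4.Per
import Pool.Agent.L0h86.F3.Cor

/-!
# The value of the `L`-function of `y² = x³ - D³` modulo the primes above two
-/

set_option autoImplicit false
set_option linter.unusedSectionVars false

open Filter MeasureTheory
open scoped Topology PeriodPair

namespace Pool.Agent.L0h86.F4

open H667R3 Pool.Agent.W192.HK Pool.Agent.TH936.CM Pool.Agent.TH936.PU
open Pool.Agent.Y696 Pool.Agent.Y715.T.Lat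
open Pool.Agent.Y698 (conj_val v_oddI tam MinimalAt)
open Pool.Agent.Y698.SG (ix card_ix tnum)
open Pool.Agent.L0h86.F1 Pool.Agent.L0h86.F3
open Pool.Agent.L0h4.T4
open Pool.Agent.TH841.NF.D (Sha)
open NumberField IsDedekindDomain WithZero WeierstrassCurve

/-- the quotient of the two sides of the formula, without the order of `Ш` -/
noncomputable def quoN (D : ℕ) (z : ℂ) : ℂ :=
  z * (tnum (WN ℚ D) : ℂ) ^ 2 /
    (((∫ x in {x : ℝ | 0 < psN D x}, 2 / Real.sqrt (psN D x) : ℝ) : ℂ) *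
      ((∏ᶠ v : HeightOneSpectrum (𝓞 ℚ), tam (WN ℚ D) v : ℕ) : ℂ))

/-! ### the statements used -/

/-- the Euler product -/
def S_DEURN : Prop := ∀ D : ℕ, AdmM D → ∀ F : ℂ → ℂ, (∀ z : ℂ, 3 / 2 < z.re →
    HasSum (fun J : Ideal eis => psi6 J * c4I J * XD D J * (nm J : ℂ) ^ (-z)) (F z)) →
  ∀ s : ℂ, 2 < s.re → F s = (WN ℚ D).LSeries s

/-- the torsion -/
def S_TORN : Prop := ∀ D : ℕ, D ≠ 0 → ∃ m : ℕ, Odd m ∧ tnum (WN ℚ D) = 2 * m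

/-- the Tamagawa numbers -/
def S_TAMN : Prop := ∀ D : ℕ, AdmM D → ∏ᶠ v : HeightOneSpectrum (𝓞 ℚ), tam (WN ℚ D) v =
  2 * 2 ^ ((M2 D).card + 2 * (M1 D).card)

/-- the model is minimal -/
def S_MINN : Prop := ∀ D : ℕ, AdmM D → ∀ v : HeightOneSpectrum (𝓞 ℚ), MinimalAt (WN ℚ D) v

section
variable {Γ : Type} [LinearOrderedCommGroupWithZero Γ] {v : Valuation ℂ Γ} {L : PeriodPair} {Ω : ℂ}

/-- the valuation of the quotient -/
theorem v_quoN (hTo : S_TORN) (hTa : S_TAMN) {D : ℕ} (h : AdmM D) (t2 : v 2 < 1) (hC : Cur L Ω)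
    {z s : ℂ} (hz : v (z / Ω) = v 2 ^ (ix (M2 D) (M1 D)).card * v (℘[L] (Ω / 2)) ^ 2 * v s) :
    v (quoN D z) = v s := by
  have hm4 := h.m4
  have hΩ : v Ω ≠ 0 := (v.ne_zero_iff).2 hC.lat.ne
  have h20 : v 2 ≠ 0 := (v.ne_zero_iff).2 two_ne_zero
  have hc4 : v ((c4 : ℝ) : ℂ) ≠ 0 := (v.ne_zero_iff).2 (by exact_mod_cast c4_pos.ne')
  obtain ⟨m, hm, hcard⟩ := hTo D h.sf.ne_zero
  have k4 : v (tnum (WN ℚ D) : ℂ) = v 2 := by
    rw [hcard]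
    push_cast
    rw [map_mul]
    have := v_oddI v t2 (m := (m : ℤ)) (by exact_mod_cast hm)
    rw [Int.cast_natCast] at this
    rw [this, mul_one]
  have k6 : v (((∏ᶠ v : HeightOneSpectrum (𝓞 ℚ), tam (WN ℚ D) v : ℕ)) : ℂ) =
      v 2 * v 2 ^ (ix (M2 D) (M1 D)).card := by
    rw [hTa D h, card_ix (disM D)]
    push_cast
    rw [map_mul, map_pow]
  have k1 := v_periodN t2 hC (D := D) (by omega)
  have k2 := v_half (v := v) hC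
  have k3 := v_c4 (v := v)
  have hP : v ((∫ x in {x : ℝ | 0 < psN D x}, 2 / Real.sqrt (psN D x) : ℝ) : ℂ) ≠ 0 := by
    intro h0
    rw [h0, zero_mul] at k1
    exact mul_ne_zero hc4 hΩ k1.symm
  have kz : v z = v 2 ^ (ix (M2 D) (M1 D)).card * v (℘[L] (Ω / 2)) ^ 2 * v s * v Ω := by
    rw [← hz, map_div₀, div_mul_cancel₀ _ hΩ]
  unfold quoN
  rw [map_div₀, map_mul, map_mul, map_pow, k4, k6, div_eq_iff (mul_ne_zero hP
    (mul_ne_zero h20 (pow_ne_zero _ h20))), kz]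
  set n := (ix (M2 D) (M1 D)).card
  set P := v ((∫ x in {x : ℝ | 0 < psN D x}, 2 / Real.sqrt (psN D x) : ℝ) : ℂ)
  set e := v (℘[L] (Ω / 2))
  set c := v ((c4 : ℝ) : ℂ)
  -- `c³ = v(2)²`, `c e = 1`, `P v(2) = c v(Ω)`
  have : e ^ 2 * v 2 ^ 2 = c := by
    rw [← k3]
    calc e ^ 2 * c ^ 3 = (c * e) ^ 2 * c := by
          rw [mul_pow, pow_succ c 2]
          ac_rfl
      _ = c := by rw [k2, one_pow, one_mul]
  calc v 2 ^ n * e ^ 2 * v s * v Ω * v 2 ^ 2 = v 2 ^ n * v s * ((e ^ 2 * v 2 ^ 2) * v Ω) := by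
        ac_rfl
    _ = v 2 ^ n * v s * (P * v 2) := by rw [this, k1]
    _ = v s * (P * (v 2 * v 2 ^ n)) := by ac_rfl

end

/-- the conjugate of a nonzero element of the field with four elements is not zero -/
lemma cj_ne {a : F4} : F4.cj a ≠ 0 ↔ a ≠ 0 := by
  revert a
  decide

/-- **the formula modulo the primes above two** -/
theorem levelN (hV : S_VALN) (hE : S_DEURN) (hTo : S_TORN) (hTa : S_TAMN) {D : ℕ} (h : AdmM D)
    (h1 : D ≠ 1) {ϖ : ℕ → eis} (hd : Dt (M2 D) (M1 D) ϖ) :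
    ∃ Λ : ℂ → ℂ, Differentiable ℂ Λ ∧ (∀ s : ℂ, 2 < s.re → Λ s = (WN ℚ D).LSeries s) ∧
      ∀ (Γ : Type) [LinearOrderedCommGroupWithZero Γ] (v : Valuation ℂ Γ), v 2 < 1 →
        v (quoN D (Λ 1)) ≤ 1 ∧ (v (quoN D (Λ 1)) = 1 ↔ Cr4 (M2 D) (M1 D) ϖ) := by
  obtain ⟨F, hF, hsum, hval⟩ := hV _ _ ϖ D hd (adm_prod h) ((adm_ne h) h1)
  have hser := hE D h F hsum
  have hreal : (starRingEnd ℂ) (F 1) = F 1 := conj_val hF (fun k => (WN ℚ D).LFunction k) hser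
  refine ⟨F, hF, hser, fun Γ _ v hv => ?_⟩
  obtain ⟨Ω, hΩ, hC⟩ := exists_cur
  obtain ⟨s, hs, hvs⟩ := hval v hv _ Ω hC
  rw [hreal] at hvs
  have key := v_quoN hTo hTa h hv hC hvs
  rw [key]
  exact ⟨hs.le, (hs.unit_iff hv).trans cj_ne⟩

/-- **the theorem for `-D`** -/
theorem coreN_of (hV : S_VALN) (hE : S_DEURN) (hTo : S_TORN) (hTa : S_TAMN) (hMi : S_MINN)
    (hDe : S_DESN) {D : ℕ} (h : AdmM D) (h1 : D ≠ 1) {ϖ : ℕ → eis} (hd : Dt (M2 D) (M1 D) ϖ) :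
    (∀ v : HeightOneSpectrum (𝓞 ℚ), MinimalAt (WN ℚ D) v) ∧
    (∃ t : ℕ, Odd t ∧ tnum (WN ℚ D) = 2 * t) ∧
    ∏ᶠ v : HeightOneSpectrum (𝓞 ℚ), tam (WN ℚ D) v =
      2 * 2 ^ ((M2 D).card + 2 * (M1 D).card) ∧
    (Cr4 (M2 D) (M1 D) ϖ → Finite (WN ℚ D).toAffine.Point ∧
      ∀ (n : ℕ) (x : Sha (WN ℚ D)), 2 ^ n • x = 0 → x = 0) ∧
    ∃ Λ : ℂ → ℂ, Differentiable ℂ Λ ∧ (∀ s : ℂ, 2 < s.re → Λ s = (WN ℚ D).LSeries s) ∧
      ∀ (Γ : Type) [LinearOrderedCommGroupWithZero Γ] (v : Valuation ℂ Γ), v 2 < 1 →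
        v (quoN D (Λ 1)) ≤ 1 ∧ (v (quoN D (Λ 1)) = 1 ↔ Cr4 (M2 D) (M1 D) ϖ) := by
  refine ⟨hMi D h, hTo D h.sf.ne_zero, hTa D h, fun hc => ?_, levelN hV hE hTo hTa h h1 hd⟩
  obtain ⟨k1, k2⟩ := hDe (M2 D) (M1 D) ϖ D hd (adm_prod h) h.m4 hc
  exact ⟨k1, fun n x hx => k2 x n hx⟩

end Pool.Agent.L0h86.F4
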